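import Pool.Agent.H62.UN.Targets

/-!
# The conic over `k(s)` has a point
-/

set_option autoImplicit false

namespace Pool.Agent.H80.UNT

open Polynomial Pool.Agent.H17.UN Pool.Agent.H62.UN

/-- linear polynomials are norms -/
theorem norm_lin {k : Type} [Field k] [IsAlgClosed k] [CharZero k] (Q : k[X])
    (hQ : Q.natDegree = 2) (hs : Q.Separable) (p : k) :
    ∃ A B : k[X], A ^ 2 - Q * B ^ 2 = X - C p := by
  obtain ⟨q, hq, q1, q0, hQe⟩ : ∃ q : k, q ≠ 0 ∧ ∃ q1 q0 : k,
      Q = C q * X ^ 2 + C q1 * X + C q0 := by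
    refine ⟨Q.coeff 2, ?_, Q.coeff 1, Q.coeff 0, ?_⟩
    · rw [← hQ]
      have h0 : Q ≠ 0 := by
        intro h
        rw [h, natDegree_zero] at hQ
        exact absurd hQ (by norm_num)
      exact leadingCoeff_ne_zero.2 h0
    · have h1 := Q.as_sum_range_C_mul_X_pow
      rw [hQ, Finset.sum_range_succ, Finset.sum_range_succ, Finset.sum_range_succ,
        Finset.sum_range_zero] at h1
      conv_lhs => rw [h1]
      rw [pow_zero, pow_one]
      ring
  obtain ⟨r, hr⟩ := IsAlgClosed.exists_pow_nat_eq q (n := 2) (by norm_num)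
  obtain ⟨t, ht⟩ := IsAlgClosed.exists_pow_nat_eq (q * p ^ 2 + q1 * p + q0) (n := 2)
    (by norm_num)
  have h2 : (2 : k) ≠ 0 := two_ne_zero
  have hc : 2 * r * t - (2 * q * p + q1) ≠ 0 := by
    intro h0
    have h3 : q1 ^ 2 = 4 * q * q0 := by
      have h4 : (2 * r * t) ^ 2 = (2 * q * p + q1) ^ 2 := by
        rw [sub_eq_zero.1 h0]
      have h5 : (2 * r * t) ^ 2 = 4 * q * (q * p ^ 2 + q1 * p + q0) := by
        rw [← ht, ← hr]; ring
      rw [h5] at h4
      linear_combination -h4
    obtain ⟨a, b, hab⟩ := hs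
    have h6 := congrArg (eval (-q1 / (2 * q))) hab
    rw [eval_add, eval_mul, eval_mul, eval_one] at h6
    have h7 : eval (-q1 / (2 * q)) Q = 0 := by
      rw [hQe]
      simp only [eval_add, eval_mul, eval_C, eval_pow, eval_X]
      field_simp
      linear_combination (-1 : k) * h3
    have h8 : eval (-q1 / (2 * q)) (derivative Q) = 0 := by
      have h9 : derivative Q = C (2 * q) * X + C q1 := by
        rw [hQe]
        have h10 : (C (2 : k) : k[X]) = 2 := rfl
        have h11 : derivative (X ^ 2 : k[X]) = 2 * X := by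
          rw [derivative_X_pow]
          norm_num
          exact h10
        rw [derivative_add, derivative_add, derivative_C_mul, derivative_C_mul, derivative_C, h11,
          derivative_X, C_mul, h10]
        ring
      rw [h9]
      simp only [eval_add, eval_mul, eval_C, eval_X]
      field_simp
      ring
    rw [h7, h8, mul_zero, mul_zero, add_zero] at h6
    exact zero_ne_one h6
  obtain ⟨b, hb⟩ := IsAlgClosed.exists_pow_nat_eq (2 * r * t - (2 * q * p + q1))⁻¹ (n := 2)
    (by norm_num)
  refine ⟨C b * (C r * (X - C p) + C t), C b, ?_⟩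
  have e1 : (C r : k[X]) ^ 2 = C q := by rw [← C_pow, hr]
  have e2 : (C t : k[X]) ^ 2 = C q * C p ^ 2 + C q1 * C p + C q0 := by
    rw [← C_pow, ht]
    simp only [C_add, C_mul, C_pow]
  have e3 : (C b : k[X]) ^ 2 * (2 * C r * C t - (2 * C q * C p + C q1)) = 1 := by
    have h9 : b ^ 2 * (2 * r * t - (2 * q * p + q1)) = 1 := by
      rw [hb, inv_mul_cancel₀ hc]
    have h10 := congrArg (C : k → k[X]) h9
    have h11 : (C (2 : k) : k[X]) = 2 := rfl
    simp only [C_add, C_mul, C_pow, C_sub, h11, C_1] at h10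
    exact h10
  rw [hQe]
  linear_combination (C b ^ 2 * (X - C p) ^ 2) * e1 + C b ^ 2 * e2 + (X - C p) * e3

theorem norm_prod {k : Type} [Field k] [IsAlgClosed k] [CharZero k] (Q : k[X])
    (hQ : Q.natDegree = 2) (hs : Q.Separable) (s : Multiset k) :
    ∃ A B : k[X], A ^ 2 - Q * B ^ 2 = (s.map (fun a => X - C a)).prod := by
  induction s using Multiset.induction_on with
  | empty => exact ⟨1, 0, by simp⟩
  | cons a s ih =>
    obtain ⟨A, B, h1⟩ := ih
    obtain ⟨E, D, h2⟩ := norm_lin Q hQ hs a
    refine ⟨E * A + Q * D * B, E * B + D * A, ?_⟩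
    rw [Multiset.map_cons, Multiset.prod_cons, ← h1, ← h2]
    ring

theorem pf_SC0 : T_SC0 := by
  intro k _ _ _ P Q hP hQ hsep
  have hs : Q.Separable := hsep.of_mul_right
  obtain ⟨g, hg⟩ := IsAlgClosed.exists_pow_nat_eq P.leadingCoeff (n := 2) (by norm_num)
  obtain ⟨A, B, hAB⟩ := norm_prod Q hQ hs P.roots
  have hPe : P = C P.leadingCoeff * (P.roots.map (fun a => X - C a)).prod :=
    (IsAlgClosed.splits P).eq_prod_roots
  have key : (C g * A) ^ 2 = P + Q * (C g * B) ^ 2 := by
    have h1 : (C g : k[X]) ^ 2 = C P.leadingCoeff := by rw [← C_pow, hg]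
    have h2 : P = (C g) ^ 2 * (A ^ 2 - Q * B ^ 2) := by
      rw [h1, hAB]; exact hPe
    linear_combination -h2
  have hP0 : P ≠ 0 := by
    intro h
    rw [h, natDegree_zero] at hP
    exact absurd hP (by norm_num)
  have hQ0 : Q ≠ 0 := by
    intro h
    rw [h, natDegree_zero] at hQ
    exact absurd hQ (by norm_num)
  refine ⟨C g * A, C g * B, key, ?_, ?_⟩
  · intro h
    rw [h] at key
    have h1 : P = -(Q * (C g * B) ^ 2) := by linear_combination -key
    have h2 : C g * B ≠ 0 := by
      intro h3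
      rw [h3] at h1
      apply hP0
      rw [h1]; ring
    have h3 := congrArg natDegree h1
    rw [natDegree_neg, natDegree_mul hQ0 (pow_ne_zero 2 h2), natDegree_pow, hP, hQ] at h3
    omega
  · intro h
    rw [h] at key
    have h1 : P = (C g * A) ^ 2 := by linear_combination -key
    have h3 := congrArg natDegree h1
    rw [natDegree_pow, hP] at h3
    omega

end Pool.Agent.H80.UNT
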